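import Mathlib

set_option autoImplicit false

namespace Pool.Agent.H.MP_944b5f_al

open Filter Set Function

def Δ : Set (ℕ × ℕ) := {p | p.2 < p.1}

def NW (g : ℕ → ℕ → ℕ) : Prop := ∀ u v : ℕ → ℕ,
  ¬ InjOn (fun p : ℕ × ℕ => g (u p.1) (v p.2)) Δ ∧ ¬ InjOn (fun p : ℕ × ℕ => g (u p.2) (v p.1)) Δ

def NWn {ι : Type} (f : (ι → ℕ) → ℕ) : Prop := ∀ (s : ι → Bool) (u : ι → ℕ → ℕ),
  ¬ InjOn (fun p : ℕ × ℕ => f fun i => u i (if s i then p.1 else p.2)) Δ

inductive G {ι : Type} : ((ι → ℕ) → ℕ) → Prop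
  | proj (i : ι) : G fun x => x i
  | comp (g : ℕ → ℕ → ℕ) (f1 f2 : (ι → ℕ) → ℕ) : NW g → G f1 → G f2 → G fun x => g (f1 x) (f2 x)

theorem G.subst {ι κ : Type} {f : (ι → ℕ) → ℕ} (hf : G f) (g : ι → (κ → ℕ) → ℕ)
    (hg : ∀ i, G (g i)) : G fun x => f fun i => g i x := by
  induction hf with
  | proj i => exact hg i
  | comp h f1 f2 hh _ _ h1 h2 => exact G.comp h _ _ hh h1 h2

theorem seq (U : Filter ℕ) [U.NeBot] (hU : U ≤ atTop) (B : Set ℕ) (hB : B ∈ U)
    (R : ℕ → ℕ → ℕ → Set ℕ) (hR : ∀ a ∈ B, ∀ b ∈ B, ∀ c ∈ B, R a b c ∈ U) :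
    ∃ n : ℕ → ℕ, StrictMono n ∧ (∀ k, n k ∈ B) ∧
      ∀ k i j l, i < k → j < k → l < k → n k ∈ R (n i) (n j) (n l) := by
  have : ∀ m : ℕ, ∃ a, m < a ∧ a ∈ B ∧ ∀ b ≤ m, ∀ c ≤ m, ∀ d ≤ m, b ∈ B → c ∈ B → d ∈ B →
      a ∈ R b c d := fun m => by
    have h1 : ∀ᶠ a in U, ∀ b ∈ Iic m, ∀ c ∈ Iic m, ∀ d ∈ Iic m, b ∈ B → c ∈ B → d ∈ B →
        a ∈ R b c d := by
      simp only [eventually_all_finite (finite_Iic m)]
      intro b _ c _ d _
      by_cases h : b ∈ B ∧ c ∈ B ∧ d ∈ B
      · exact mem_of_superset (hR b h.1 c h.2.1 d h.2.2) fun a ha _ _ _ => ha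
      · exact Eventually.of_forall fun a h1 h2 h3 => absurd ⟨h1, h2, h3⟩ h
    exact (((eventually_gt_atTop m).filter_mono hU).and (Eventually.and hB h1)).exists
  choose nx h1 h2 h3 using this
  let n : ℕ → ℕ := fun k => nx^[k + 1] 0
  have e : ∀ k, n (k + 1) = nx (n k) := fun k => iterate_succ_apply' _ _ _
  have hn : StrictMono n := strictMono_nat_of_lt_succ fun k => by rw [e]; exact h1 _
  have hb : ∀ k, n k ∈ B := fun k => by
    simp only [n, iterate_succ_apply']; exact h2 _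
  refine ⟨n, hn, hb, fun k i j l hi hj hl => ?_⟩
  obtain ⟨k, rfl⟩ : ∃ m, k = m + 1 := ⟨k - 1, by omega⟩
  rw [e]
  exact h3 _ _ (hn.monotone (by omega)) _ (hn.monotone (by omega)) _ (hn.monotone (by omega))
    (hb _) (hb _) (hb _)

theorem inj_of {H : ℕ → ℕ → ℕ} (h1 : ∀ k i j, i < k → j < k → H k i = H k j → i = j)
    (h2 : ∀ k i j l, i < k → l < j → j < k → H k i ≠ H j l) :
    InjOn (fun p : ℕ × ℕ => H p.1 p.2) Δ := by
  rintro ⟨a, b⟩ hp ⟨c, d⟩ hq (h : H a b = H c d)
  rcases lt_trichotomy a c with hl | rfl | hl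
  · exact absurd h.symm (h2 _ _ _ _ hq hp hl)
  · rw [h1 a b d hp hq h]
  · exact absurd h (h2 _ _ _ _ hp hq hl)

theorem canon (H : ℕ → ℕ → ℕ)
    (hH : ∀ n : ℕ → ℕ, StrictMono n → ¬ InjOn (fun p : ℕ × ℕ => H (n p.1) (n p.2)) Δ) :
    ∃ n : ℕ → ℕ, StrictMono n ∧ ∃ (s : Bool) (q : ℕ → ℕ), ∀ a b, b < a →
      H (n a) (n b) = q (if s then a else b) := by
  let U := hyperfilter ℕ
  have hU : (U : Filter ℕ) ≤ atTop := Nat.hyperfilter_le_atTop
  by_cases h1 : {b | ∃ c, ∀ᶠ a in U, H a b = c} ∈ U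
  · have : ∀ b, ∃ c, (∃ c, ∀ᶠ a in U, H a b = c) → ∀ᶠ a in U, H a b = c := fun b => by
      by_cases h : ∃ c, ∀ᶠ a in U, H a b = c
      · exact ⟨h.choose, fun _ => h.choose_spec⟩
      · exact ⟨0, fun h' => absurd h' h⟩
    choose c hc using this
    obtain ⟨n, hn, -, h⟩ := seq U hU _ h1 (fun b _ _ => {a | H a b = c b}) fun b hb _ _ _ _ => hc b hb
    exact ⟨n, hn, false, fun b => c (n b), fun a b hab => h a b b b hab hab hab⟩
  by_cases h2 : ∃ b0, {b | ∀ᶠ a in U, H a b = H a b0} ∈ U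
  · obtain ⟨b0, h2⟩ := h2
    obtain ⟨n, hn, -, h⟩ := seq U hU _ h2 (fun b _ _ => {a | H a b = H a b0}) fun b hb _ _ _ _ => hb
    exact ⟨n, hn, true, fun a => H (n a) b0, fun a b hab => h a b b b hab hab hab⟩
  exfalso
  push Not at h2
  obtain ⟨n, hn, -, h⟩ := seq U hU _ (Ultrafilter.compl_mem_iff_notMem.2 h1)
    (fun b c d => {a | (¬ ∀ᶠ e in U, H e a = H e b) ∧ H a b ≠ H c d ∧
      ((¬ ∀ᶠ e in U, H e b = H e c) → H a b ≠ H a c)}) fun b hb c _ d _ => by
    refine inter_mem (Ultrafilter.compl_mem_iff_notMem.2 (h2 b)) (inter_mem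
      (Ultrafilter.eventually_not.2 fun h => hb ⟨_, h⟩) ?_)
    by_cases h : ∀ᶠ e in U, H e b = H e c
    · exact univ_mem' fun a h' => absurd h h'
    · exact mem_of_superset (Ultrafilter.eventually_not.2 h) fun a ha _ => ha
  refine hH n hn (inj_of (H := fun a b => H (n a) (n b)) (fun k i j hi hj e => ?_)
    fun k i j l hi hl hj => (h k i j l hi hj (hl.trans hj)).2.1)
  rcases lt_trichotomy i j with hl | rfl | hl
  · exact absurd e.symm ((h k j i i hj hi hi).2.2 (h j i i i hl hl hl).1)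
  · rfl
  · exact absurd e ((h k i j j hi hj hj).2.2 (h i j j j hl hl hl).1)

theorem InjOn.sub {α : Type} {H : ℕ → ℕ → α} (h : InjOn (fun p : ℕ × ℕ => H p.1 p.2) Δ) {n : ℕ → ℕ}
    (hn : StrictMono n) : InjOn (fun p : ℕ × ℕ => H (n p.1) (n p.2)) Δ := fun p hp q hq e => by
  have := h (x₁ := (n p.1, n p.2)) (hn hp) (x₂ := (n q.1, n q.2)) (hn hq) e
  exact Prod.ext (hn.injective (congrArg Prod.fst this)) (hn.injective (congrArg Prod.snd this))

theorem G.nwn {ι : Type} {f : (ι → ℕ) → ℕ} (hf : G f) : NWn f := by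
  have c1 : ∀ q : ℕ → ℕ, ¬ InjOn (fun p : ℕ × ℕ => q p.1) Δ := fun q h => by
    simpa using h (x₁ := (2, 0)) (by simp [Δ]) (x₂ := (2, 1)) (by simp [Δ]) rfl
  have c2 : ∀ q : ℕ → ℕ, ¬ InjOn (fun p : ℕ × ℕ => q p.2) Δ := fun q h => by
    simpa using h (x₁ := (1, 0)) (by simp [Δ]) (x₂ := (2, 0)) (by simp [Δ]) rfl
  induction hf with
  | proj i =>
    intro s u
    cases h : s i
    · simpa [h] using c2 (u i)
    · simpa [h] using c1 (u i)
  | comp g f1 f2 hg _ _ h1 h2 =>
    intro s u h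
    have e : ∀ (n : ℕ → ℕ) (a b : ℕ), (fun i => u i (if s i then n a else n b)) =
        fun i => u i (n (if s i then a else b)) := fun n a b => by
      ext i; split_ifs <;> rfl
    obtain ⟨n, hn, s1, q1, e1⟩ := canon (fun a b => f1 fun i => u i (if s i then a else b))
      fun n _ => by simpa only [e] using h1 s fun i k => u i (n k)
    obtain ⟨m, hm, s2, q2, e2⟩ := canon (fun a b => f2 fun i => u i (if s i then n a else n b))
      fun m _ => by simpa only [e (fun k => n (m k))] using h2 s fun i k => u i (n (m k))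
    have h3 := (InjOn.sub (H := fun a b => g (f1 fun i => u i (if s i then a else b))
      (f2 fun i => u i (if s i then a else b))) h (hn.comp hm)).congr
      (f₂ := fun p => g (q1 (if s1 then m p.1 else m p.2)) (q2 (if s2 then p.1 else p.2)))
      fun p hp => by
        have := e1 _ _ (hm hp)
        have := e2 _ _ hp
        simp_all
    cases s1 <;> cases s2
    · exact c2 (fun k => g (q1 (m k)) (q2 k)) h3
    · exact (hg (fun k => q1 (m k)) q2).2 h3
    · exact (hg (fun k => q1 (m k)) q2).1 h3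
    · exact c1 (fun k => g (q1 (m k)) (q2 k)) h3

theorem nw1 {g : ℕ → ℕ → ℕ} (p q : ℕ → ℕ) (h : ∀ a b, g a b = p a ∨ g a b = q b) : NW g := by
  have : ∀ (H : ℕ → ℕ → ℕ) (p q : ℕ → ℕ), (∀ a b, H a b = p a ∨ H a b = q b) →
      ¬ InjOn (fun x : ℕ × ℕ => H x.1 x.2) Δ := fun H p q h hi => by
    have hi' : ∀ a b c d, b < a → d < c → (a, b) ≠ (c, d) → H a b ≠ H c d :=
      fun a b c d h1 h2 h3 e => h3 (hi (x₁ := (a, b)) h1 (x₂ := (c, d)) h2 e)
    have := hi' 3 0 3 1; have := hi' 3 0 3 2; have := hi' 3 1 3 2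
    have := hi' 4 0 4 1; have := hi' 4 0 4 2; have := hi' 4 1 4 2
    have := hi' 3 0 4 0; have := hi' 3 1 4 1; have := hi' 3 2 4 2
    have := h 3 0; have := h 3 1; have := h 3 2; have := h 4 0; have := h 4 1; have := h 4 2
    simp at *
    omega
  exact fun u v => ⟨this (fun a b => g (u a) (v b)) _ _ fun a b => h _ _,
    this (fun a b => g (u b) (v a)) _ _ fun a b => (h _ _).symm⟩

theorem col {H : ℕ → ℕ → ℕ} {S : Set ℕ} (hS : S.Finite) (h : ∀ a, H a 0 ∈ S) :
    ¬ InjOn (fun x : ℕ × ℕ => H x.1 x.2) Δ := fun hi =>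
  infinite_of_injective_forall_mem (f := fun a => H (a + 1) 0) (fun a b e => by
    simpa using hi (x₁ := (a + 1, 0)) (by simp [Δ]) (x₂ := (b + 1, 0)) (by simp [Δ]) e)
    (fun a => h _) hS

theorem G.un {ι : Type} {f : (ι → ℕ) → ℕ} (hf : G f) (u : ℕ → ℕ) : G fun x => u (f x) :=
  G.comp (fun a _ => u a) _ _ (nw1 u id fun _ _ => Or.inl rfl) hf hf

theorem G.max {ι : Type} {f g : (ι → ℕ) → ℕ} (hf : G f) (hg : G g) : G fun x => max (f x) (g x) :=
  G.comp Max.max _ _ (nw1 id id fun a b => max_choice a b) hf hg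

theorem G.ite {ι : Type} {f a b : (ι → ℕ) → ℕ} (hf : G f) (ha : G a) (hb : G b) :
    G fun x => if a x ≤ b x then f x else 0 := by
  have := G.comp (fun c v => if c = 0 then v else 0) _ _ (nw1 (fun _ => 0) id fun c v => by
    split_ifs <;> simp) (G.comp (fun c v => if c ≤ v then 0 else 1) _ _
      (nw1 (fun _ => 0) (fun _ => 1) fun c v => by split_ifs <;> simp) ha hb) hf
  convert this using 2 with x
  split_ifs <;> simp_all

theorem G.sup {ι κ : Type} [Nonempty ι] (S : Finset κ) (f : κ → (ι → ℕ) → ℕ)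
    (hf : ∀ k ∈ S, G (f k)) : G fun x => S.sup fun k => f k x := by
  classical
  induction S using Finset.induction_on with
  | empty => exact (G.proj (Classical.arbitrary ι)).un fun _ => 0
  | insert k S hk ih =>
    simp only [Finset.sup_insert]
    exact (hf k (by simp)).max (ih fun k hk => hf k (by simp [hk]))

theorem step {ι : Type} [Fintype ι] [DecidableEq ι] {f : (ι → ℕ) → ℕ} (hf : NWn f) (D : Finset ι)
    (hD : DependsOn f D) (i j : ι) (hi : i ∈ D.erase j)
    (ih : ∀ T : (ι → ℕ) → ℕ, DependsOn T (D.erase j) → NWn T → G T) :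
    ∃ F, G F ∧ ∀ x, (∀ k ∈ D.erase j, x k ≤ x i) → x i ≤ x j → F x = f x := by
  obtain ⟨dec, hdec⟩ := exists_surjective_nat (ι → ℕ)
  let val : ∀ y, ℕ → (ι → Fin (y + 1)) → ℕ := fun y z ξ => f (update (fun k => ξ k) j z)
  let φ : ℕ → ℕ → ℕ → ℕ := fun y z v => if v ≤ y then 2 * v else
    2 * surjInv hdec (fun k => invFun (val y z) v k) + 1
  let E : ∀ y, ℕ → (ι → Fin (y + 1)) → ℕ := fun y z ξ => φ y z (val y z ξ)
  have hφ : ∀ y, ∃ S : Set ℕ, S.Finite ∧ ∀ z v, φ y z v ∈ S := fun y =>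
    ⟨(fun v => 2 * v) '' Iic y ∪ range fun ξ : ι → Fin (y + 1) => 2 * surjInv hdec (fun k => ξ k) + 1,
      ((finite_Iic y).image _).union (finite_range _), fun z v => by
      simp only [φ]
      split_ifs with h
      · exact Or.inl ⟨v, h, rfl⟩
      · exact Or.inr ⟨_, rfl⟩⟩
  choose S hS hφS using hφ
  let V : ℕ → ℕ → ℕ := fun y z => if y ≤ z then Nat.pair y (invFun (E y) (E y z)) else 0
  have hV : NW V := fun u v => ⟨col (H := fun a b => V (u a) (v b))
      (((finite_Iic (v 0)).image fun y => V y (v 0)).insert 0) fun a => by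
      by_cases h : u a ≤ v 0
      · exact Or.inr ⟨_, h, rfl⟩
      · exact Or.inl (if_neg h),
    col (H := fun a b => V (u b) (v a)) (((Finite.pi' fun _ => hS (u 0)).image
      fun e => Nat.pair (u 0) (invFun (E (u 0)) e)).insert 0) fun a => by
      by_cases h : u 0 ≤ v a
      · exact Or.inr ⟨E (u 0) (v a), fun ξ => hφS _ _ _, (if_pos h).symm⟩
      · exact Or.inl (if_neg h)⟩
  let cl : (ι → ℕ) → ∀ y, ι → Fin (y + 1) := fun x y k =>
    ⟨min (update x i y k) y, Nat.lt_succ_of_le (min_le_right _ _)⟩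
  let T' : ℕ → ℕ → (ι → ℕ) → ℕ := fun y z x => φ y z (val y z (cl x y))
  let T : (ι → ℕ) → ℕ := fun x => T' (x i).unpair.1 (x i).unpair.2 x
  have hT : G T := by
    refine ih T (fun x x' h => ?_) fun s u h => ?_
    · simp only [T]
      rw [← h i hi]
      refine congrArg (φ _ _) (hD fun k hk => ?_)
      by_cases hkj : k = j
      · simp [hkj]
      · by_cases hki : k = i
        · simp [hki, cl, (Finset.mem_erase.1 hi).1]
        · simp [hkj, hki, cl, h k (by simpa [hkj] using hk)]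
    cases hs : s i
    · refine col (H := fun a b => T fun k => u k (if s k then a else b)) (hS (u i 0).unpair.1)
        (fun a => ?_) h
      simp only [T, hs, Bool.false_eq_true, if_false]
      exact hφS _ _ _
    let y := fun a => (u i a).unpair.1
    let z := fun a => (u i a).unpair.2
    let F : ℕ → ℕ → ℕ := fun a b => val (y a) (z a) (cl (fun k => u k (if s k then a else b)) _)
    have h' : InjOn (fun p : ℕ × ℕ => φ (y p.1) (z p.1) (F p.1 p.2)) Δ := by
      convert h using 2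
      simp only [T, hs, if_true]
      rfl
    have hy : ∀ c, ∀ᶠ a in atTop, c ≤ y a := fun c => by
      have := (finite_Iio c).biUnion fun t _ => hS t
      refine (eventually_gt_atTop this.toFinset.card).mono fun a ha => not_lt.1 fun hc => ?_
      have := Finset.card_le_card_of_injOn (s := Finset.range a) (t := this.toFinset)
        (fun b => φ (y a) (z a) (F a b)) (fun b _ => by
          simpa using ⟨y a, hc, hφS _ _ _⟩) fun b hb b' hb' e => congrArg Prod.snd
          (h' (x₁ := (a, b)) (Finset.mem_range.1 hb) (x₂ := (a, b')) (Finset.mem_range.1 hb') e)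
      rw [Finset.card_range] at this
      omega
    have hF : ∀ b c, ∀ᶠ a in atTop, F a b ≠ c := fun b c => by
      by_contra hn
      obtain ⟨a, h1, h2, h3⟩ := ((not_eventually.1 hn).and_eventually
        ((hy c).and (eventually_gt_atTop b))).exists
      obtain ⟨a', h4, h5, h6⟩ := ((not_eventually.1 hn).and_eventually
        ((hy c).and (eventually_gt_atTop a))).exists
      have := h' (x₁ := (a, b)) h3 (x₂ := (a', b)) (h3.trans h6) (by
        simp only [not_not.1 h1, not_not.1 h4, φ, h2, h5, if_true])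
      simp at this
      omega
    obtain ⟨n, hn, -, h⟩ := seq atTop le_rfl univ univ_mem
      (fun b c d => {a | F a b ≠ F c d ∧ ∀ k, u k b ≤ y a}) fun b _ c _ d _ =>
        (hF b _).and (eventually_all.2 fun k => hy _)
    refine hf (fun k => k = j ∨ s k) (fun k a => if k = j then z (n a) else if k = i then y (n a)
      else if s k then min (u k (n a)) (y (n a)) else u k (n a))
      ((inj_of (H := fun a b => F (n a) (n b)) (fun k a b ha hb e => hn.injective (congrArg Prod.snd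
        (h' (x₁ := (n k, n a)) (hn ha) (x₂ := (n k, n b)) (hn hb) (by simp only [e]))))
        fun k a b l ha hl hb => (h k a b l ha hb (hl.trans hb)).1).congr fun p hp => ?_)
    simp only [F, val]
    congr 1
    ext k
    by_cases hkj : k = j
    · simp [hkj]
    by_cases hki : k = i
    · subst hki; simp [hkj, cl, hs]
    cases hk : s k
    · simp [hkj, hki, cl, hk, (h p.1 p.2 p.2 p.2 hp hp hp).2 k]
    · simp [hkj, hki, cl, hk]
  have hN : NW fun p z => f (update (dec p) j z) := fun u v => by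
    constructor
    · convert hf (fun k => k ≠ j) fun k a => if k = j then v a else dec (u a) k using 5 with p k
      by_cases hk : k = j <;> simp [hk]
    · convert hf (fun k => k = j) fun k a => if k = j then v a else dec (u a) k using 5 with p k
      by_cases hk : k = j <;> simp [hk]
  let e : (ι → ℕ) → ℕ := fun x => T (update x i (V (x i) (x j)))
  have he : G e := hT.subst (fun k x => update x i (V (x i) (x j)) k) fun k => by
    by_cases hk : k = i
    · simpa [hk] using G.comp V _ _ hV (G.proj i) (G.proj j)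
    · simpa [hk] using G.proj k
  refine ⟨_, (G.ite (he.un (· / 2)) (he.un (· % 2)) (he.un fun _ => 0)).max
    (G.ite (G.comp _ _ _ hN (he.un (· / 2)) (G.proj j)) (he.un fun _ => 1) (he.un (· % 2))),
    fun x h1 h2 => ?_⟩
  have e1 : val (x i) (x j) (cl x _) = f x := hD fun k hk => by
    by_cases hkj : k = j
    · simp [hkj]
    · simp [hkj, cl, h1 k (by simpa [hkj] using hk)]
  have e2 : e x = φ (x i) (x j) (f x) := by
    simp only [e, T, update_self, V, h2, if_true, Nat.unpair_pair]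
    have : ∀ w y z, T' y z (update x i w) = E y z (cl x y) := fun w y z => by
      simp only [T', E, cl, update_idem]
    rw [this, invFun_eq (f := E (x i)) ⟨_, rfl⟩, ← e1]
  simp only [e2, φ]
  split_ifs with h3 h4 h5 h6 h7 h8 h9 <;> try omega
  rw [(by omega : ∀ t, (2 * t + 1) / 2 = t), surjInv_eq hdec, zero_max]
  exact invFun_eq (f := val (x i) (x j)) ⟨_, e1⟩

theorem main {ι : Type} [Fintype ι] [Nonempty ι] (n : ℕ) : ∀ (D : Finset ι) (f : (ι → ℕ) → ℕ),
    D.card = n → DependsOn f D → NWn f → G f := by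
  classical
  induction n with
  | zero =>
    intro D f hc hD _
    obtain rfl := Finset.card_eq_zero.1 hc
    convert (G.proj (Classical.arbitrary ι)).un fun _ => f 0 using 2
    exact hD (by simp)
  | succ n ih =>
    intro D f hc hD hf
    by_cases hn : n = 0
    · obtain ⟨i, rfl⟩ := Finset.card_eq_one.1 (hn ▸ hc)
      convert (G.proj i).un fun a => f fun _ => a using 2
      exact hD (by simp)
    have : ∀ p : ι × ι, ∃ F, G F ∧ (p.2 ∈ D → p.1 ∈ D.erase p.2 → ∀ x,
        (∀ k ∈ D.erase p.2, x k ≤ x p.1) → x p.1 ≤ x p.2 → F x = f x) := fun p => by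
      by_cases h : p.2 ∈ D ∧ p.1 ∈ D.erase p.2
      · obtain ⟨F, h1, h2⟩ := step hf D hD p.1 p.2 h.2 fun T h1 h2 =>
          ih _ T (by rw [Finset.card_erase_of_mem h.1, hc]; rfl) h1 h2
        exact ⟨F, h1, fun _ _ => h2⟩
      · exact ⟨_, G.proj p.1, fun h1 h2 => absurd ⟨h1, h2⟩ h⟩
    choose F hF hF' using this
    convert G.sup (Finset.univ.filter fun p : ι × ι => p.2 ∈ D ∧ p.1 ∈ D.erase p.2) _ fun p _ =>
      ((hF p).ite (G.proj p.1) (G.proj p.2)).ite
        (G.sup (D.erase p.2) (fun k x => x k) fun k _ => G.proj k) (G.proj p.1) using 2 with x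
    apply le_antisymm
    · obtain ⟨j, hj, h1⟩ := D.exists_max_image x (Finset.card_pos.1 (by omega))
      obtain ⟨i, hi, h2⟩ := (D.erase j).exists_max_image x (Finset.card_pos.1 (by
        rw [Finset.card_erase_of_mem hj]; omega))
      have h3 := h1 i (Finset.mem_of_mem_erase hi)
      refine Finset.le_sup_of_le (b := (i, j)) (by simpa using ⟨hj, by simpa using hi⟩) ?_
      rw [if_pos (Finset.sup_le h2), if_pos h3, hF' (i, j) hj hi x h2 h3]
    · refine Finset.sup_le fun p hp => ?_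
      split_ifs with h1 h2
      · have := (Finset.mem_filter.1 hp).2
        rw [hF' p this.1 this.2 x (Finset.sup_le_iff.1 h1) h2]
      · simp
      · simp

theorem iff {ι : Type} [Fintype ι] [Nonempty ι] (f : (ι → ℕ) → ℕ) : G f ↔ NWn f :=
  ⟨G.nwn, main _ Finset.univ f rfl (by simpa using dependsOn_univ f)⟩

end Pool.Agent.H.MP_944b5f_al
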